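import Mathlib
import Pool.Agent.R706.SkewLaurent

/-!
# A skew Laurent series ring over a finite right semidistributive ring that is not
right semidistributive
-/

namespace Pool.Agent.Results.MP_d4f5ca_al.SwapCounterexample

open Pool.Agent.R706

/-- A module is distributive if its lattice of submodules is distributive. -/
def IsDistributive (R M : Type) [Ring R] [AddCommGroup M] [Module R M] : Prop :=
  ∀ F G H : Submodule R M, F ⊓ (G ⊔ H) = (F ⊓ G) ⊔ (F ⊓ H)

/-- A module is semidistributive if it is a direct sum of distributive modules. -/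
def IsSemidistributive (R M : Type) [Ring R] [AddCommGroup M] [Module R M] : Prop :=
  ∃ (I : Type) (_ : DecidableEq I) (N : I → Submodule R M), DirectSum.IsInternal N ∧
    ∀ i, IsDistributive R (N i)

/-- A ring `A` is right semidistributive if the right regular module `A_A` is semidistributive
(right `A`-modules are left modules over the opposite ring). -/
def RightSemidistributive (A : Type) [Ring A] : Prop := IsSemidistributive Aᵐᵒᵖ A

/-- A ring `A` is right Artinian if the right regular module `A_A` is Artinian. -/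
def RightArtinian (A : Type) [Ring A] : Prop := IsArtinian Aᵐᵒᵖ A

/-- a criterion for distributivity -/
theorem distributive_of (R M : Type) [Ring R] [AddCommGroup M] [Module R M]
    (h : ∀ x y : M, ∃ r : R, (∃ s : R, r • x = s • y) ∧ ∃ s : R, (1 - r) • y = s • x) :
    IsDistributive R M := by
  intro F G H
  apply le_antisymm
  · rintro z ⟨hzF, hz⟩
    obtain ⟨x, hx, y, hy, rfl⟩ := Submodule.mem_sup.1 hz
    obtain ⟨r, ⟨s, hs⟩, ⟨t, ht⟩⟩ := h x y
    have h1 : x + y = (1 - r) • (x + y) + r • (x + y) := by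
      rw [← add_smul, sub_add_cancel, one_smul]
    rw [h1]
    apply Submodule.add_mem_sup
    · refine ⟨F.smul_mem _ hzF, ?_⟩
      rw [smul_add, ht]
      exact G.add_mem (G.smul_mem _ hx) (G.smul_mem _ hx)
    · refine ⟨F.smul_mem _ hzF, ?_⟩
      rw [smul_add, hs]
      exact H.add_mem (H.smul_mem _ hy) (H.smul_mem _ hy)
  · exact sup_le (inf_le_inf le_rfl le_sup_left) (inf_le_inf le_rfl le_sup_right)

/-! ### The ring `A`: the path algebra of `1 → 2`, `1 → 3` over the field with two elements -/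

/-- the path algebra: `a e₁ + b e₂ + c e₃ + p e₁₂ + q e₁₃` -/
@[ext] structure PA where
  a : ZMod 2
  b : ZMod 2
  c : ZMod 2
  p : ZMod 2
  q : ZMod 2
deriving DecidableEq, Fintype

namespace PA

instance : Zero PA := ⟨⟨0, 0, 0, 0, 0⟩⟩
instance : One PA := ⟨⟨1, 1, 1, 0, 0⟩⟩
instance : Add PA := ⟨fun x y => ⟨x.a + y.a, x.b + y.b, x.c + y.c, x.p + y.p, x.q + y.q⟩⟩
instance : Neg PA := ⟨fun x => ⟨-x.a, -x.b, -x.c, -x.p, -x.q⟩⟩
instance : Mul PA := ⟨fun x y => ⟨x.a * y.a, x.b * y.b, x.c * y.c, x.a * y.p + x.p * y.b,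
  x.a * y.q + x.q * y.c⟩⟩

@[simp] theorem zero_a : (0 : PA).a = 0 := rfl
@[simp] theorem zero_b : (0 : PA).b = 0 := rfl
@[simp] theorem zero_c : (0 : PA).c = 0 := rfl
@[simp] theorem zero_p : (0 : PA).p = 0 := rfl
@[simp] theorem zero_q : (0 : PA).q = 0 := rfl
@[simp] theorem one_a : (1 : PA).a = 1 := rfl
@[simp] theorem one_b : (1 : PA).b = 1 := rfl
@[simp] theorem one_c : (1 : PA).c = 1 := rfl
@[simp] theorem one_p : (1 : PA).p = 0 := rfl
@[simp] theorem one_q : (1 : PA).q = 0 := rfl
@[simp] theorem add_a (x y : PA) : (x + y).a = x.a + y.a := rfl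
@[simp] theorem add_b (x y : PA) : (x + y).b = x.b + y.b := rfl
@[simp] theorem add_c (x y : PA) : (x + y).c = x.c + y.c := rfl
@[simp] theorem add_p (x y : PA) : (x + y).p = x.p + y.p := rfl
@[simp] theorem add_q (x y : PA) : (x + y).q = x.q + y.q := rfl
@[simp] theorem neg_a (x : PA) : (-x).a = -x.a := rfl
@[simp] theorem neg_b (x : PA) : (-x).b = -x.b := rfl
@[simp] theorem neg_c (x : PA) : (-x).c = -x.c := rfl
@[simp] theorem neg_p (x : PA) : (-x).p = -x.p := rfl
@[simp] theorem neg_q (x : PA) : (-x).q = -x.q := rfl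
@[simp] theorem mul_a (x y : PA) : (x * y).a = x.a * y.a := rfl
@[simp] theorem mul_b (x y : PA) : (x * y).b = x.b * y.b := rfl
@[simp] theorem mul_c (x y : PA) : (x * y).c = x.c * y.c := rfl
@[simp] theorem mul_p (x y : PA) : (x * y).p = x.a * y.p + x.p * y.b := rfl
@[simp] theorem mul_q (x y : PA) : (x * y).q = x.a * y.q + x.q * y.c := rfl

instance : Ring PA where
  add_assoc _ _ _ := by ext <;> simp [add_assoc]
  zero_add _ := by ext <;> simp
  add_zero _ := by ext <;> simp
  add_comm _ _ := by ext <;> simp [add_comm]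
  neg_add_cancel _ := by ext <;> exact neg_add_cancel _
  mul_assoc _ _ _ := by ext <;> simp <;> ring
  one_mul _ := by ext <;> simp
  mul_one _ := by ext <;> simp
  left_distrib _ _ _ := by ext <;> simp <;> ring
  right_distrib _ _ _ := by ext <;> simp <;> ring
  zero_mul _ := by ext <;> simp
  mul_zero _ := by ext <;> simp
  nsmul := nsmulRec
  zsmul := zsmulRec

/-- the automorphism exchanging the vertices `2` and `3` -/
def swap : RingAut PA where
  toFun x := ⟨x.a, x.c, x.b, x.q, x.p⟩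
  invFun x := ⟨x.a, x.c, x.b, x.q, x.p⟩
  left_inv _ := rfl
  right_inv _ := rfl
  map_mul' _ _ := rfl
  map_add' _ _ := rfl

/-- the summand `e₁A` -/
def N1 : Submodule PAᵐᵒᵖ PA where
  carrier := {x | x.b = 0 ∧ x.c = 0}
  zero_mem' := ⟨rfl, rfl⟩
  add_mem' := by
    rintro x y ⟨h1, h2⟩ ⟨h3, h4⟩
    exact ⟨by simp [h1, h3], by simp [h2, h4]⟩
  smul_mem' := by
    rintro r x ⟨h1, h2⟩
    exact ⟨by simp [MulOpposite.smul_eq_mul_unop, h1], by simp [MulOpposite.smul_eq_mul_unop, h2]⟩

/-- the summand `(e₂ + e₃)A` -/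
def N2 : Submodule PAᵐᵒᵖ PA where
  carrier := {x | x.a = 0 ∧ x.p = 0 ∧ x.q = 0}
  zero_mem' := ⟨rfl, rfl, rfl⟩
  add_mem' := by
    rintro x y ⟨h1, h2, h5⟩ ⟨h3, h4, h6⟩
    exact ⟨by simp [h1, h3], by simp [h2, h4], by simp [h5, h6]⟩
  smul_mem' := by
    rintro r x ⟨h1, h2, h3⟩
    exact ⟨by simp [MulOpposite.smul_eq_mul_unop, h1], by simp [MulOpposite.smul_eq_mul_unop, h1, h2],
     by simp [MulOpposite.smul_eq_mul_unop, h1, h3]⟩

theorem op_smul (r : PAᵐᵒᵖ) (x : PA) : r • x = x * r.unop := rfl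

theorem N1_distributive : IsDistributive PAᵐᵒᵖ N1 := by
  apply distributive_of
  rintro ⟨x, hx1, hx2⟩ ⟨y, hy1, hy2⟩
  have h01 : ∀ c : ZMod 2, c = 0 ∨ c = 1 := by decide
  have key : ∀ r s t : PA, x * r = y * s → y * (1 - r) = x * t →
      ∃ r : PAᵐᵒᵖ, (∃ s : PAᵐᵒᵖ, r • (⟨x, hx1, hx2⟩ : N1) = s • ⟨y, hy1, hy2⟩) ∧
        ∃ s : PAᵐᵒᵖ, (1 - r) • (⟨y, hy1, hy2⟩ : N1) = s • ⟨x, hx1, hx2⟩ := by
    intro r s t h1 h2
    exact ⟨MulOpposite.op r, ⟨MulOpposite.op s, Subtype.ext h1⟩, ⟨MulOpposite.op t, Subtype.ext h2⟩⟩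
  rcases h01 x.a with ha | ha
  · rcases h01 y.a with ha' | ha'
    · refine key ⟨0, y.p, y.q, 0, 0⟩ ⟨0, x.p, x.q, 0, 0⟩ 0 ?_ ?_
      · ext <;> simp [ha, ha', hx1, hx2, hy1, hy2, mul_comm]
      · have h2 : ∀ c : ZMod 2, c = 0 ∨ 1 + c = 0 := by decide
        ext <;> simp [sub_eq_add_neg, ha', hy1, hy2]
        · exact h2 _
        · exact h2 _
    · refine key 1 x 0 ?_ ?_
      · ext <;> simp [ha', hx1, hx2, hy1, hy2, ha]
      · simp
  · refine key 0 0 y ?_ ?_
    · simp
    · ext <;> simp [ha, hx1, hx2, hy1, hy2]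

theorem N2_distributive : IsDistributive PAᵐᵒᵖ N2 := by
  apply distributive_of
  rintro ⟨x, hx1, hx2, hx3⟩ ⟨y, hy1, hy2, hy3⟩
  refine ⟨MulOpposite.op y, ⟨MulOpposite.op x, Subtype.ext ?_⟩, ⟨0, Subtype.ext ?_⟩⟩
  · show x * y = y * x
    ext <;> simp [hx1, hx2, hx3, hy1, hy2, hy3, mul_comm]
  · show y * (1 - y) = x * 0
    have h2 : ∀ c : ZMod 2, c = 0 ∨ 1 + c = 0 := by decide
    ext <;> simp [sub_eq_add_neg, hy1, hy2, hy3]
    · exact h2 _
    · exact h2 _

theorem isCompl : IsCompl N1 N2 := by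
  constructor
  · rw [disjoint_iff, eq_bot_iff]
    rintro x ⟨⟨h1, h2⟩, ⟨h3, h4, h5⟩⟩
    rw [Submodule.mem_bot]
    ext
    · exact h3
    · exact h1
    · exact h2
    · exact h4
    · exact h5
  · rw [codisjoint_iff, eq_top_iff]
    rintro x -
    have : x = (⟨x.a, 0, 0, x.p, x.q⟩ : PA) + ⟨0, x.b, x.c, 0, 0⟩ := by ext <;> simp
    rw [this]
    exact Submodule.add_mem_sup ⟨rfl, rfl⟩ ⟨rfl, rfl, rfl⟩

theorem semidistributive : RightSemidistributive PA := by
  refine ⟨Bool, inferInstance, fun b => if b then N1 else N2, ?_, ?_⟩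
  · rw [DirectSum.isInternal_submodule_iff_isCompl _ (i := true) (j := false) (by decide) (by
      ext b; cases b <;> simp)]
    exact isCompl
  · intro b
    cases b
    · exact N2_distributive
    · exact N1_distributive

theorem artinian : RightArtinian PA := by
  unfold RightArtinian
  infer_instance

end PA

/-! ### The skew Laurent series ring -/

open SkewLaurent PA

/-- `A((x, φ))` -/
abbrev B : Type := SkewLaurent PA swap

/-- `e₁`, as an element of `A` -/
def e1 : PA := ⟨1, 0, 0, 0, 0⟩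
def e12 : PA := ⟨0, 0, 0, 1, 0⟩
def e13 : PA := ⟨0, 0, 0, 0, 1⟩

/-- the element `c e₁` -/
def e (c : ZMod 2) : PA := ⟨c, 0, 0, 0, 0⟩

theorem e_mul (c d : ZMod 2) : e c * e d = e (c * d) := by
  ext <;> simp [e]

/-- `e` as an additive homomorphism -/
def eHom : ZMod 2 →+ PA where
  toFun := e
  map_zero' := rfl
  map_add' c d := by ext <;> simp [e]

theorem swap_e (n : ℤ) (c : ZMod 2) : (swap ^ n) (e c) = e c := by
  induction n using Int.induction_on with
  | zero => rfl
  | succ n ih => rw [zpow_add_one, RingAut.mul_apply]; exact ih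
  | pred n ih => rw [zpow_sub_one, RingAut.mul_apply]; exact ih

theorem swap_fix (n : ℤ) (c : PA) (h : swap c = c) : (swap ^ n) c = c := by
  induction n using Int.induction_on with
  | zero => rfl
  | succ n ih => rw [zpow_add_one, RingAut.mul_apply, h]; exact ih
  | pred n ih =>
    rw [zpow_sub_one, RingAut.mul_apply]
    have : (swap⁻¹ : RingAut PA) c = c := by
      conv_lhs => rw [← h]
      rfl
    rw [this]; exact ih

theorem swap_a (n : ℤ) (x : PA) : ((swap ^ n) x).a = x.a := by
  induction n using Int.induction_on generalizing x with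
  | zero => rfl
  | succ n ih => rw [zpow_add_one, RingAut.mul_apply, ih]; rfl
  | pred n ih => rw [zpow_sub_one, RingAut.mul_apply, ih]; rfl

/-- the embedding of the field of Laurent series over `𝔽₂` onto `e₁ B e₁` -/
noncomputable def theta (γ : LaurentSeries (ZMod 2)) : B :=
  SkewLaurent.mk (fun i => e (γ.coeff i)) ⟨γ.order, fun i hi => by
    rw [HahnSeries.coeff_eq_zero_of_lt_order hi]; rfl⟩

theorem coeff_theta (γ : LaurentSeries (ZMod 2)) (i : ℤ) : (theta γ).coeff i = e (γ.coeff i) := rfl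

theorem theta_mul (γ δ : LaurentSeries (ZMod 2)) : theta γ * theta δ = theta (γ * δ) := by
  ext1 m
  have ha : ∀ i < γ.order, (theta γ).coeff i = 0 := fun i hi => by
    rw [coeff_theta, HahnSeries.coeff_eq_zero_of_lt_order hi]; rfl
  have hb : ∀ i < δ.order, (theta δ).coeff i = 0 := fun i hi => by
    rw [coeff_theta, HahnSeries.coeff_eq_zero_of_lt_order hi]; rfl
  rw [SkewLaurent.coeff_mul_eq_sum _ _ ha hb m _ (Finset.Subset.refl _), coeff_theta,
    HahnSeries.coeff_mul]
  show _ = eHom _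
  rw [map_sum]
  symm
  apply Finset.sum_of_injOn (fun ij : ℤ × ℤ => ij.1)
  · rintro ⟨i, j⟩ h1 ⟨k, l⟩ h2 h3
    obtain ⟨_, _, h1'⟩ := Finset.mem_antidiagonal.1 (Finset.mem_coe.1 h1)
    obtain ⟨_, _, h2'⟩ := Finset.mem_antidiagonal.1 (Finset.mem_coe.1 h2)
    simp only at h1' h2' h3
    rw [Prod.mk.injEq]
    omega
  · rintro ⟨i, j⟩ h1
    obtain ⟨h2, h3, h4⟩ := Finset.mem_antidiagonal.1 (Finset.mem_coe.1 h1)
    simp only at h2 h3 h4
    have h5 : γ.order ≤ i := by
      by_contra hlt
      exact h2 (HahnSeries.coeff_eq_zero_of_lt_order (not_le.1 hlt))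
    have h6 : δ.order ≤ j := by
      by_contra hlt
      exact h3 (HahnSeries.coeff_eq_zero_of_lt_order (not_le.1 hlt))
    show i ∈ (Finset.Icc γ.order (m - δ.order) : Set ℤ)
    rw [Finset.coe_Icc, Set.mem_Icc]
    omega
  · intro i hi hi2
    rw [coeff_theta, coeff_theta, swap_e, e_mul]
    by_contra hne
    apply hi2
    refine ⟨(i, m - i), Finset.mem_coe.2 (Finset.mem_antidiagonal.2 ⟨?_, ?_, ?_⟩), rfl⟩
    · intro h0
      apply hne
      simp only at h0
      rw [h0, zero_mul]; rfl
    · intro h0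
      apply hne
      simp only at h0
      rw [h0, mul_zero]; rfl
    · simp
  · rintro ⟨i, j⟩ h1
    obtain ⟨h2, h3, h4⟩ := Finset.mem_antidiagonal.1 h1
    simp only at h2 h3 h4
    rw [coeff_theta, coeff_theta, swap_e, e_mul]
    simp only
    rw [show m - i = j by omega]
    rfl

theorem theta_one : theta 1 = mono 0 (e 1) := by
  ext1 m
  rw [coeff_theta, coeff_mono, HahnSeries.coeff_one]
  split_ifs <;> rfl

/-- the idempotent `e₁` of `B` -/
noncomputable def E : B := mono 0 (e 1)

theorem exists_inverse (c : B) (h : E * c * E ≠ 0) : ∃ u : B, u * (E * c * E) = E := by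
  obtain ⟨n, hn⟩ := c.exists_bound
  have hcoef : ∀ m, (E * c * E).coeff m = e ((c.coeff m).a) := by
    intro m
    rw [E, coeff_mul_mono, coeff_mono_mul, swap_e]
    ext <;> simp [e]
  let γ : LaurentSeries (ZMod 2) := HahnSeries.ofSuppBddBelow (fun m => (c.coeff m).a)
    ⟨n, fun i hi => by
      by_contra hlt
      apply hi
      show (c.coeff i).a = 0
      rw [hn i (not_le.1 hlt)]
      rfl⟩
  have hγ : E * c * E = theta γ := by
    ext1 m
    rw [hcoef, coeff_theta]
    rfl
  have hγ0 : γ ≠ 0 := by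
    intro h0
    apply h
    rw [hγ, h0]
    ext1 m
    rfl
  refine ⟨theta γ⁻¹, ?_⟩
  rw [hγ, theta_mul, inv_mul_cancel₀ hγ0, theta_one]
  rfl

/-- `e₁₂` -/
noncomputable def s : B := mono 0 e12
/-- `e₁₃ x` -/
noncomputable def t : B := mono 1 e13

theorem E_mul_s : E * s = s := by
  ext1 m
  rw [E, coeff_mono_mul, s, coeff_mono, coeff_mono, zpow_zero]
  split_ifs with h1 h2 h2
  · ext <;> simp [e, e12]
  · omega
  · omega
  · simp

theorem E_mul_t : E * t = t := by
  ext1 m
  rw [E, coeff_mono_mul, t, coeff_mono, coeff_mono, zpow_zero]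
  split_ifs with h1 h2 h2
  · ext <;> simp [e, e13]
  · omega
  · omega
  · simp

theorem coeff_s_mul (b : B) (m : ℤ) : (s * b).coeff m = ⟨0, 0, 0, (b.coeff m).b, 0⟩ := by
  rw [s, coeff_mono_mul, zpow_zero, sub_zero]
  ext <;> simp [e12]

theorem coeff_t_mul (b : B) (m : ℤ) : (t * b).coeff m = ⟨0, 0, 0, 0, (b.coeff (m - 1)).b⟩ := by
  rw [t, coeff_mono_mul, zpow_one]
  ext <;> simp [e13]
  rfl

theorem st_independent (b c : B) (h : s * b = t * c) : s * b = 0 ∧ t * b = 0 := by
  have h1 : ∀ m, (b.coeff m).b = 0 := by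
    intro m
    have := congrArg (fun z : B => (z.coeff m).p) h
    simp only [coeff_s_mul, coeff_t_mul] at this
    exact this
  constructor
  · ext1 m
    rw [coeff_s_mul, h1]
    rfl
  · ext1 m
    rw [coeff_t_mul, h1]
    rfl

theorem ts_independent (b c : B) (h : t * b = s * c) : s * b = 0 ∧ t * b = 0 := by
  have h1 : ∀ m, (b.coeff m).b = 0 := by
    intro m
    have := congrArg (fun z : B => (z.coeff (m + 1)).q) h
    simp only [coeff_s_mul, coeff_t_mul, add_sub_cancel_right] at this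
    exact this
  constructor
  · ext1 m
    rw [coeff_s_mul, h1]
    rfl
  · ext1 m
    rw [coeff_t_mul, h1]
    rfl

theorem not_semidistributive : ¬ RightSemidistributive B := by
  rintro ⟨I, _, N, hN, hdis⟩
  -- find a summand containing an element with nonzero corner
  obtain ⟨i, f, hf⟩ : ∃ (i : I) (f : N i), E * (f : B) * E ≠ 0 := by
    by_contra hcon
    push Not at hcon
    have h1 : (1 : B) ∈ ⨆ i, N i := by rw [hN.submodule_iSup_eq_top]; trivial
    have h2 : ∀ z ∈ ⨆ i, N i, E * z * E = 0 := by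
      intro z hz
      induction hz using Submodule.iSup_induction' with
      | mem i x hx => exact hcon i ⟨x, hx⟩
      | zero => simp
      | add x y _ _ hx hy => rw [mul_add, add_mul, hx, hy, add_zero]
    have h3 := h2 1 h1
    have h4 := congrArg (fun z : B => (z.coeff 0).a) h3
    simp only [E, coeff_mul_mono, coeff_mono_mul] at h4
    simp [SkewLaurent.coeff_one, e] at h4
  obtain ⟨u, hu⟩ := exists_inverse _ hf
  let F : Submodule Bᵐᵒᵖ (N i) := Submodule.span Bᵐᵒᵖ {MulOpposite.op (E * (s + t)) • f}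
  let G : Submodule Bᵐᵒᵖ (N i) := Submodule.span Bᵐᵒᵖ {MulOpposite.op (E * s) • f}
  let H : Submodule Bᵐᵒᵖ (N i) := Submodule.span Bᵐᵒᵖ {MulOpposite.op (E * t) • f}
  have hmem : MulOpposite.op (E * (s + t)) • f ∈ F ⊓ (G ⊔ H) := by
    refine ⟨Submodule.mem_span_singleton_self _, ?_⟩
    have : MulOpposite.op (E * (s + t)) • f = MulOpposite.op (E * s) • f +
        MulOpposite.op (E * t) • f := by
      rw [mul_add, MulOpposite.op_add, add_smul]
    rw [this]
    exact Submodule.add_mem_sup (Submodule.mem_span_singleton_self _)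
      (Submodule.mem_span_singleton_self _)
  -- the key computation
  have key : ∀ z : B, u * E * ((f : B) * (E * z)) = E * z := by
    intro z
    calc u * E * ((f : B) * (E * z)) = u * (E * (f : B) * E) * z := by simp only [mul_assoc]
      _ = E * z := by rw [hu]
  have hst : E * (s + t) = s + t := by rw [mul_add, E_mul_s, E_mul_t]
  have hFG : F ⊓ G = ⊥ := by
    rw [eq_bot_iff]
    rintro z ⟨hz1, hz2⟩
    obtain ⟨b, hb⟩ := Submodule.mem_span_singleton.1 hz1
    obtain ⟨c, hc⟩ := Submodule.mem_span_singleton.1 hz2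
    have h1 : (z : B) = (f : B) * (E * (s + t)) * b.unop := by rw [← hb]; rfl
    have h2 : (z : B) = (f : B) * (E * s) * c.unop := by rw [← hc]; rfl
    have h3 : (s + t) * b.unop = s * c.unop := by
      have h4 := h1.symm.trans h2
      have h5 : u * E * ((f : B) * (E * (s + t)) * b.unop) =
        u * E * ((f : B) * (E * s) * c.unop) := congrArg (fun w => u * E * w) h4
      rw [← mul_assoc, key, ← mul_assoc, key, hst, E_mul_s] at h5
      exact h5
    have h6 : t * b.unop = s * (c.unop - b.unop) := by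
      rw [mul_sub, ← h3, add_mul]; abel
    obtain ⟨h7, h8⟩ := ts_independent _ _ h6
    rw [Submodule.mem_bot]
    apply Subtype.ext
    rw [h1, hst, mul_assoc, add_mul, h7, h8]
    simp
  have hFH : F ⊓ H = ⊥ := by
    rw [eq_bot_iff]
    rintro z ⟨hz1, hz2⟩
    obtain ⟨b, hb⟩ := Submodule.mem_span_singleton.1 hz1
    obtain ⟨c, hc⟩ := Submodule.mem_span_singleton.1 hz2
    have h1 : (z : B) = (f : B) * (E * (s + t)) * b.unop := by rw [← hb]; rfl
    have h2 : (z : B) = (f : B) * (E * t) * c.unop := by rw [← hc]; rfl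
    have h3 : (s + t) * b.unop = t * c.unop := by
      have h4 := h1.symm.trans h2
      have h5 : u * E * ((f : B) * (E * (s + t)) * b.unop) =
        u * E * ((f : B) * (E * t) * c.unop) := congrArg (fun w => u * E * w) h4
      rw [← mul_assoc, key, ← mul_assoc, key, hst, E_mul_t] at h5
      exact h5
    have h6 : s * b.unop = t * (c.unop - b.unop) := by
      rw [mul_sub, ← h3, add_mul]; abel
    obtain ⟨h7, h8⟩ := st_independent _ _ h6
    rw [Submodule.mem_bot]
    apply Subtype.ext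
    rw [h1, hst, mul_assoc, add_mul, h7, h8]
    simp
  rw [hdis i F G H, hFG, hFH, sup_bot_eq, Submodule.mem_bot] at hmem
  have h1 : (f : B) * (E * (s + t)) = 0 := congrArg Subtype.val hmem
  have h2 : s + t = 0 := by
    rw [← hst, ← key (s + t), h1, mul_zero]
  have h3 := congrArg (fun z : B => (z.coeff 0).p) h2
  simp [s, t, coeff_mono, e12] at h3

/-- **Skew Laurent series rings over right semidistributive right Artinian rings need not be right
semidistributive.** -/
theorem result : ∃ (A : Type) (_ : Ring A) (φ : RingAut A), RightArtinian A ∧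
    RightSemidistributive A ∧ ¬ RightSemidistributive (SkewLaurent A φ) :=
  ⟨PA, inferInstance, swap, artinian, semidistributive, not_semidistributive⟩

end Pool.Agent.Results.MP_d4f5ca_al.SwapCounterexample
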